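import Mathlib

/-!
# MP_768819_an: closed polygons through unit vectors surrounding the origin

Every Hamiltonian circuit through finitely many points of the unit sphere of a real normed space
whose convex hull contains the origin has length at least `4`.
-/

namespace Pool.Agent.Results.MP_768819_an.Circuit

open Finset MeasureTheory

/-- step function `1_{θ ≤ a}` -/
noncomputable def G (a : ℝ) : ℝ → ℝ := Set.indicator {x | x ≤ a} (fun _ => (1 : ℝ))

lemma G_or (a θ : ℝ) : G a θ = 0 ∨ G a θ = 1 := by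
  unfold G
  by_cases h : θ ≤ a
  · right; simp [Set.indicator, h]
  · left; simp [Set.indicator, h]

lemma G_mono {a b : ℝ} (hab : a ≤ b) (θ : ℝ) : G a θ ≤ G b θ := by
  unfold G
  by_cases h : θ ≤ a
  · have : θ ≤ b := h.trans hab
    simp [Set.indicator, h, this]
  · by_cases h' : θ ≤ b
    · simp [Set.indicator, h, h']
    · simp [Set.indicator, h, h']

lemma G_anti (a : ℝ) : Antitone (G a) := by
  intro x y hxy
  unfold G
  by_cases h : y ≤ a
  · have : x ≤ a := hxy.trans h
    simp [Set.indicator, h, this]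
  · by_cases h' : x ≤ a
    · simp [Set.indicator, h, h']
    · simp [Set.indicator, h, h']

lemma G_int (a u v : ℝ) : IntervalIntegrable (G a) volume u v :=
  (G_anti a).intervalIntegrable

lemma G_integral {a h : ℝ} (h0 : 0 ≤ a) (h1 : a ≤ h) : ∫ θ in (0:ℝ)..h, G a θ = a := by
  unfold G
  rw [intervalIntegral.integral_indicator (⟨h0, h1⟩ : a ∈ Set.Icc 0 h)]
  simp

/-- half-circle indicator of the point `x ∈ [0, 2h]` of the circle of length `2h` -/
noncomputable def psi (h x θ : ℝ) : ℝ := if x ≤ h then G x θ else 1 - G (x - h) θ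

lemma psi_or (h x θ : ℝ) : psi h x θ = 0 ∨ psi h x θ = 1 := by
  unfold psi
  split_ifs
  · exact G_or _ _
  · rcases G_or (x - h) θ with h | h
    · right; rw [h]; norm_num
    · left; rw [h]; norm_num

lemma psi_int (h x u v : ℝ) : IntervalIntegrable (psi h x) volume u v := by
  unfold psi
  by_cases hx : x ≤ h
  · simp only [hx, if_true]; exact G_int _ _ _
  · simp only [hx, if_false]
    exact intervalIntegrable_const.sub (G_int _ _ _)

lemma sqdiff_le {a b h : ℝ} (ha : 0 ≤ a) (hb : 0 ≤ b) (ha' : a ≤ h) (hb' : b ≤ h) :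
    ∫ θ in (0:ℝ)..h, (G a θ - G b θ) ^ 2 = |a - b| := by
  wlog hab : a ≤ b generalizing a b
  · have := this hb ha hb' ha' (le_of_not_ge hab)
    rw [abs_sub_comm, ← this]
    congr 1
    ext θ
    ring
  · have e : (fun θ => (G a θ - G b θ) ^ 2) = fun θ => G b θ - G a θ := by
      ext θ
      have h1 := G_mono hab θ
      rcases G_or a θ with h2 | h2 <;> rcases G_or b θ with h3 | h3 <;>
        rw [h2, h3] at h1 ⊢ <;> first | (exfalso; linarith) | norm_num
    rw [e, intervalIntegral.integral_sub (G_int _ _ _) (G_int _ _ _), G_integral hb hb',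
      G_integral ha ha', abs_sub_comm, abs_of_nonneg (by linarith)]

lemma sqdiff_int (a b h : ℝ) :
    IntervalIntegrable (fun θ => (G a θ - G b θ) ^ 2) volume 0 h := by
  have key : ∀ a b : ℝ, a ≤ b →
      IntervalIntegrable (fun θ => (G a θ - G b θ) ^ 2) volume 0 h := by
    intro a b hab
    have e : (fun θ => (G a θ - G b θ) ^ 2) = fun θ => G b θ - G a θ := by
      ext θ
      have h1 := G_mono hab θ
      rcases G_or a θ with h2 | h2 <;> rcases G_or b θ with h3 | h3 <;>
        rw [h2, h3] at h1 ⊢ <;> first | (exfalso; linarith) | norm_num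
    rw [e]
    exact (G_int _ _ _).sub (G_int _ _ _)
  rcases le_total a b with hab | hab
  · exact key a b hab
  · have := key b a hab
    have e : (fun θ => (G a θ - G b θ) ^ 2) = fun θ => (G b θ - G a θ) ^ 2 := by
      ext θ; ring
    rw [e]; exact this

lemma psi_integral {h x y : ℝ} (hx0 : 0 ≤ x) (hy0 : 0 ≤ y)
    (hx : x ≤ 2 * h) (hy : y ≤ 2 * h) :
    min (|x - y|) (2 * h - |x - y|) ≤ ∫ θ in (0:ℝ)..h, (psi h x θ - psi h y θ) ^ 2 := by
  unfold psi
  by_cases h1 : x ≤ h <;> by_cases h2 : y ≤ h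
  · simp only [h1, h2, if_true]
    rw [sqdiff_le hx0 hy0 h1 h2]
    exact min_le_left _ _
  · simp only [h1, h2, if_true, if_false]
    push Not at h2
    have e : (fun θ => (G x θ - (1 - G (y - h) θ)) ^ 2)
        = fun θ => 1 - (G x θ - G (y - h) θ) ^ 2 := by
      ext θ
      rcases G_or x θ with h2 | h2 <;> rcases G_or (y - h) θ with h3 | h3 <;> rw [h2, h3] <;>
        norm_num
    rw [e, intervalIntegral.integral_sub intervalIntegrable_const (sqdiff_int _ _ _),
      sqdiff_le hx0 (by linarith) h1 (by linarith)]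
    simp only [intervalIntegral.integral_const, smul_eq_mul, mul_one, sub_zero]
    rw [abs_of_nonpos (by linarith : x - y ≤ 0)]
    rcases le_total x (y - h) with h3 | h3
    · rw [abs_of_nonpos (by linarith)]
      refine (min_le_right _ _).trans ?_
      linarith
    · rw [abs_of_nonneg (by linarith)]
      refine (min_le_left _ _).trans ?_
      linarith
  · simp only [h1, h2, if_true, if_false]
    push Not at h1
    have e : (fun θ => ((1 - G (x - h) θ) - G y θ) ^ 2)
        = fun θ => 1 - (G (x - h) θ - G y θ) ^ 2 := by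
      ext θ
      rcases G_or (x - h) θ with h2 | h2 <;> rcases G_or y θ with h3 | h3 <;> rw [h2, h3] <;>
        norm_num
    rw [e, intervalIntegral.integral_sub intervalIntegrable_const (sqdiff_int _ _ _),
      sqdiff_le (by linarith) hy0 (by linarith) h2]
    simp only [intervalIntegral.integral_const, smul_eq_mul, mul_one, sub_zero]
    rw [abs_of_nonneg (by linarith : 0 ≤ x - y)]
    rcases le_total (x - h) y with h3 | h3
    · rw [abs_of_nonpos (by linarith)]
      refine (min_le_left _ _).trans ?_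
      linarith
    · rw [abs_of_nonneg (by linarith)]
      refine (min_le_right _ _).trans ?_
      linarith
  · simp only [h1, h2, if_false]
    push Not at h1 h2
    have e : (fun θ => ((1 - G (x - h) θ) - (1 - G (y - h) θ)) ^ 2)
        = fun θ => (G (x - h) θ - G (y - h) θ) ^ 2 := by
      ext θ; ring
    rw [e, sqdiff_le (by linarith) (by linarith) (by linarith) (by linarith)]
    have : x - h - (y - h) = x - y := by ring
    rw [this]
    exact min_le_left _ _

lemma psi_sq_int (h x y : ℝ) :
    IntervalIntegrable (fun θ => (psi h x θ - psi h y θ) ^ 2) volume 0 h := by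
  unfold psi
  by_cases h1 : x ≤ h <;> by_cases h2 : y ≤ h
  · simp only [h1, h2, if_true]
    exact sqdiff_int _ _ _
  · simp only [h1, h2, if_true, if_false]
    have e : (fun θ => (G x θ - (1 - G (y - h) θ)) ^ 2)
        = fun θ => 1 - (G x θ - G (y - h) θ) ^ 2 := by
      ext θ
      rcases G_or x θ with h2 | h2 <;> rcases G_or (y - h) θ with h3 | h3 <;> rw [h2, h3] <;>
        norm_num
    rw [e]
    exact intervalIntegrable_const.sub (sqdiff_int _ _ _)
  · simp only [h1, h2, if_true, if_false]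
    have e : (fun θ => ((1 - G (x - h) θ) - G y θ) ^ 2)
        = fun θ => 1 - (G (x - h) θ - G y θ) ^ 2 := by
      ext θ
      rcases G_or (x - h) θ with h2 | h2 <;> rcases G_or y θ with h3 | h3 <;> rw [h2, h3] <;>
        norm_num
    rw [e]
    exact intervalIntegrable_const.sub (sqdiff_int _ _ _)
  · simp only [h1, h2, if_false]
    have e : (fun θ => ((1 - G (x - h) θ) - (1 - G (y - h) θ)) ^ 2)
        = fun θ => (G (x - h) θ - G (y - h) θ) ^ 2 := by
      ext θ; ring
    rw [e]
    exact sqdiff_int _ _ _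

/-- the average circle distance is at most a quarter of the circumference -/
lemma avg_le {ι : Type*} [Fintype ι] (lam t : ι → ℝ) (h : ℝ) (hh : 0 ≤ h)
    (hl : ∀ i, 0 ≤ lam i) (hs : ∑ i, lam i = 1) (ht0 : ∀ i, 0 ≤ t i) (ht1 : ∀ i, t i ≤ 2 * h) :
    ∑ i, ∑ k, lam i * lam k * min (|t i - t k|) (2 * h - |t i - t k|) ≤ h / 2 := by
  have step1 : ∑ i, ∑ k, lam i * lam k * min (|t i - t k|) (2 * h - |t i - t k|)
      ≤ ∑ i, ∑ k, lam i * lam k * ∫ θ in (0:ℝ)..h, (psi h (t i) θ - psi h (t k) θ) ^ 2 := by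
    refine Finset.sum_le_sum fun i _ => Finset.sum_le_sum fun k _ => ?_
    exact mul_le_mul_of_nonneg_left
      (psi_integral (ht0 i) (ht0 k) (ht1 i) (ht1 k)) (mul_nonneg (hl i) (hl k))
  have step2 : ∑ i, ∑ k, lam i * lam k * ∫ θ in (0:ℝ)..h, (psi h (t i) θ - psi h (t k) θ) ^ 2
      = ∫ θ in (0:ℝ)..h, ∑ i, ∑ k, lam i * lam k * (psi h (t i) θ - psi h (t k) θ) ^ 2 := by
    rw [intervalIntegral.integral_finsetSum]
    · refine Finset.sum_congr rfl fun i _ => ?_
      rw [intervalIntegral.integral_finsetSum]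
      · refine Finset.sum_congr rfl fun k _ => ?_
        rw [intervalIntegral.integral_const_mul]
      · intro k _
        exact (psi_sq_int h (t i) (t k)).const_mul _
    · intro i _
      have : IntervalIntegrable (∑ k, fun θ => lam i * lam k * (psi h (t i) θ - psi h (t k) θ) ^ 2)
          volume 0 h :=
        IntervalIntegrable.sum _ (fun k _ => (psi_sq_int h (t i) (t k)).const_mul _)
      have e : (fun θ => ∑ k, lam i * lam k * (psi h (t i) θ - psi h (t k) θ) ^ 2)
          = ∑ k, fun θ => lam i * lam k * (psi h (t i) θ - psi h (t k) θ) ^ 2 := by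
        ext θ; simp
      rw [e]; exact this
  have step3 : ∀ θ : ℝ, ∑ i, ∑ k, lam i * lam k * (psi h (t i) θ - psi h (t k) θ) ^ 2 ≤ 1 / 2 := by
    intro θ
    have e1 : ∑ i, ∑ k, lam i * lam k * (psi h (t i) θ - psi h (t k) θ) ^ 2
        = 2 * (∑ i, lam i) * (∑ i, lam i * psi h (t i) θ) - 2 * (∑ i, lam i * psi h (t i) θ) ^ 2 := by
      have hsq : ∀ i, (psi h (t i) θ) ^ 2 = psi h (t i) θ := by
        intro i
        rcases psi_or h (t i) θ with h1 | h1 <;> rw [h1] <;> norm_num
      have e2 : ∀ i k, lam i * lam k * (psi h (t i) θ - psi h (t k) θ) ^ 2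
          = lam k * (lam i * psi h (t i) θ) + lam i * (lam k * psi h (t k) θ)
            - 2 * ((lam i * psi h (t i) θ) * (lam k * psi h (t k) θ)) := by
        intro i k
        have := hsq i
        have := hsq k
        linear_combination (lam i * lam k) * (hsq i) + (lam i * lam k) * (hsq k)
      simp only [e2, Finset.sum_sub_distrib, Finset.sum_add_distrib]
      simp only [← Finset.mul_sum, ← Finset.sum_mul]
      ring
    rw [e1, hs]
    nlinarith [sq_nonneg ((∑ i, lam i * psi h (t i) θ) - 1 / 2)]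
  have step4 : ∫ θ in (0:ℝ)..h, ∑ i, ∑ k, lam i * lam k * (psi h (t i) θ - psi h (t k) θ) ^ 2
      ≤ ∫ θ in (0:ℝ)..h, (1 / 2 : ℝ) := by
    apply intervalIntegral.integral_mono_on hh
    · have : IntervalIntegrable
          (∑ i, ∑ k, fun θ => lam i * lam k * (psi h (t i) θ - psi h (t k) θ) ^ 2) volume 0 h :=
        IntervalIntegrable.sum _ fun i _ => IntervalIntegrable.sum _
          (fun k _ => (psi_sq_int h (t i) (t k)).const_mul _)
      have e : (fun θ => ∑ i, ∑ k, lam i * lam k * (psi h (t i) θ - psi h (t k) θ) ^ 2)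
          = ∑ i, ∑ k, fun θ => lam i * lam k * (psi h (t i) θ - psi h (t k) θ) ^ 2 := by
        ext θ; simp
      rw [e]; exact this
    · exact intervalIntegrable_const
    · intro θ _
      exact step3 θ
  rw [step2] at step1
  refine step1.trans (step4.trans ?_)
  simp
  linarith

/-- **MP_768819_an, Q1.** In every real normed space `X`, for all `r ≥ 2`, all points
`p 0, …, p (r-1)` of the unit sphere with `0` in their convex hull and every cyclic ordering
`σ` of them, the closed polygon through the points in this order has length at least `4`. -/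
theorem result {X : Type*} [NormedAddCommGroup X] [NormedSpace ℝ X] (r : ℕ) (hr : 2 ≤ r)
    (p : Fin r → X) (hp : ∀ i, ‖p i‖ = 1) (h0 : (0 : X) ∈ convexHull ℝ (Set.range p))
    (σ : Equiv.Perm (Fin r)) :
    4 ≤ ∑ k : Fin r, ‖p (σ (finRotate r k)) - p (σ k)‖ := by
  classical
  obtain ⟨n, rfl⟩ : ∃ n, r = n + 1 := ⟨r - 1, by omega⟩
  -- convex weights
  have hw : ∃ w : Fin (n + 1) → ℝ, (∀ i, 0 ≤ w i) ∧ ∑ i, w i = 1 ∧ ∑ i, w i • p i = 0 := by
    rw [convexHull_range_eq_exists_affineCombination] at h0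
    obtain ⟨s, w, hw0, hw1, hw2⟩ := h0
    refine ⟨fun i => if i ∈ s then w i else 0, ?_, ?_, ?_⟩
    · intro i
      by_cases h : i ∈ s
      · simp [h, hw0 i h]
      · simp [h]
    · rw [← hw1, Finset.sum_ite_mem, Finset.univ_inter]
    · rw [Finset.affineCombination_eq_linear_combination _ _ _ hw1] at hw2
      rw [← hw2]
      simp [ite_smul, Finset.sum_ite_mem]
  obtain ⟨w, hw0, hw1, hw2⟩ := hw
  -- the polygon
  set q : ℕ → X := fun j => p (σ (Fin.ofNat (n + 1) j)) with hq
  set L : ℝ := ∑ j ∈ range (n + 1), ‖q (j + 1) - q j‖ with hL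
  have hLsum : ∑ k : Fin (n + 1), ‖p (σ (finRotate (n + 1) k)) - p (σ k)‖ = L := by
    rw [hL, ← Fin.sum_univ_eq_sum_range (fun j => ‖q (j + 1) - q j‖)]
    refine Finset.sum_congr rfl fun k _ => ?_
    have e1 : Fin.ofNat (n + 1) (k : ℕ) = k := by
      ext; simp [Fin.ofNat, Nat.mod_eq_of_lt k.2]
    have e2 : Fin.ofNat (n + 1) ((k : ℕ) + 1) = finRotate (n + 1) k := by
      rw [finRotate_apply]
      ext
      simp [Fin.ofNat, Fin.val_add]
    simp only [hq, e1, e2]
  rw [hLsum]
  set t : ℕ → ℝ := fun k => ∑ j ∈ range k, ‖q (j + 1) - q j‖ with ht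
  have htm : Monotone t := by
    apply monotone_nat_of_le_succ
    intro k
    simp only [ht, Finset.sum_range_succ]
    have := norm_nonneg (q (k + 1) - q k)
    linarith
  have ht0 : ∀ k, 0 ≤ t k := fun k => Finset.sum_nonneg fun _ _ => norm_nonneg _
  have htL : t (n + 1) = L := rfl
  have hqr : q (n + 1) = q 0 := by
    simp only [hq]
    congr 2
    ext; simp [Fin.ofNat]
  have hd : ∀ i k, i ≤ k → ‖q i - q k‖ ≤ t k - t i := by
    intro i k hik
    have h1 := dist_le_Ico_sum_dist q hik
    rw [dist_eq_norm] at h1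
    refine h1.trans ?_
    have h2 : t k - t i = ∑ j ∈ Ico i k, ‖q (j + 1) - q j‖ := by
      rw [ht]
      rw [Finset.sum_Ico_eq_sub _ hik]
    rw [h2]
    refine Finset.sum_le_sum fun j _ => ?_
    rw [dist_comm, dist_eq_norm]
  have hd2 : ∀ i k, i ≤ k → k ≤ n + 1 → ‖q i - q k‖ ≤ L - (t k - t i) := by
    intro i k hik hk
    have h1 := hd k (n + 1) hk
    have h2 := hd 0 i (Nat.zero_le i)
    rw [hqr, htL] at h1
    have ht00 : t 0 = 0 := by simp [ht]
    rw [ht00] at h2
    have h3 : ‖q i - q k‖ ≤ ‖q k - q 0‖ + ‖q 0 - q i‖ := by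
      have : q i - q k = -((q k - q 0) + (q 0 - q i)) := by abel
      rw [this, norm_neg]
      exact norm_add_le _ _
    linarith
  have hdd : ∀ i k, i ≤ n + 1 → k ≤ n + 1 →
      ‖q i - q k‖ ≤ min (|t i - t k|) (2 * (L / 2) - |t i - t k|) := by
    intro i k hi hk
    rcases le_total i k with h | h
    · have h1 := hd i k h
      have h2 := hd2 i k h hk
      have h3 := htm h
      rw [abs_of_nonpos (by linarith)]
      apply le_min <;> linarith
    · have h1 := hd k i h
      have h2 := hd2 k i h hi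
      have h3 := htm h
      rw [abs_of_nonneg (by linarith)]
      rw [norm_sub_rev]
      apply le_min <;> linarith
  -- weights transported
  set lam : Fin (n + 1) → ℝ := fun k => w (σ k) with hlam
  have hls : ∑ k, lam k = 1 := by
    rw [← hw1]; exact Equiv.sum_comp σ w
  have hl0 : ∀ k, 0 ≤ lam k := fun k => hw0 _
  have hqk : ∀ k : Fin (n + 1), q (k : ℕ) = p (σ k) := by
    intro k
    have e1 : Fin.ofNat (n + 1) (k : ℕ) = k := by
      ext; simp [Fin.ofNat, Nat.mod_eq_of_lt k.2]
    simp only [hq, e1]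
  have hlq : ∑ k : Fin (n + 1), lam k • q k = 0 := by
    rw [← hw2, ← Equiv.sum_comp σ (fun i => w i • p i)]
    refine Finset.sum_congr rfl fun k _ => ?_
    rw [hqk]
  have hone : ∀ i : Fin (n + 1), 1 ≤ ∑ k : Fin (n + 1), lam k * ‖q i - q k‖ := by
    intro i
    have h1 : ∑ k : Fin (n + 1), lam k • (q i - q k) = q i := by
      simp only [smul_sub, Finset.sum_sub_distrib, hlq, ← Finset.sum_smul, hls]
      simp
    have h2 : ‖q i‖ = 1 := by rw [hqk]; exact hp _
    calc (1 : ℝ) = ‖∑ k : Fin (n + 1), lam k • (q i - q k)‖ := by rw [h1, h2]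
      _ ≤ ∑ k : Fin (n + 1), ‖lam k • (q i - q k)‖ := norm_sum_le _ _
      _ = ∑ k : Fin (n + 1), lam k * ‖q i - q k‖ := by
          refine Finset.sum_congr rfl fun k _ => ?_
          rw [norm_smul, Real.norm_eq_abs, abs_of_nonneg (hl0 k)]
  have hsum1 : 1 ≤ ∑ i : Fin (n + 1), ∑ k : Fin (n + 1), lam i * lam k * ‖q i - q k‖ := by
    calc (1 : ℝ) = ∑ i, lam i * 1 := by simp [hls]
      _ ≤ ∑ i : Fin (n + 1), lam i * ∑ k : Fin (n + 1), lam k * ‖q i - q k‖ :=
          Finset.sum_le_sum fun i _ => mul_le_mul_of_nonneg_left (hone i) (hl0 i)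
      _ = _ := by
          refine Finset.sum_congr rfl fun i _ => ?_
          rw [Finset.mul_sum]
          refine Finset.sum_congr rfl fun k _ => ?_
          ring
  have hLnn : 0 ≤ L := Finset.sum_nonneg fun _ _ => norm_nonneg _
  have hfin := avg_le lam (fun k : Fin (n + 1) => t k) (L / 2) (by linarith) hl0 hls
    (fun k => ht0 _) (fun k => by
      have := htm (show (k : ℕ) ≤ n + 1 from k.2.le)
      rw [htL] at this
      linarith)
  have hcmp : ∑ i : Fin (n + 1), ∑ k : Fin (n + 1), lam i * lam k * ‖q i - q k‖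
      ≤ ∑ i : Fin (n + 1), ∑ k : Fin (n + 1), lam i * lam k *
        min (|t i - t k|) (2 * (L / 2) - |t i - t k|) := by
    refine Finset.sum_le_sum fun i _ => Finset.sum_le_sum fun k _ => ?_
    exact mul_le_mul_of_nonneg_left (hdd i k i.2.le k.2.le) (mul_nonneg (hl0 i) (hl0 k))
  linarith

end Pool.Agent.Results.MP_768819_an.Circuit
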